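import Pool.Agent.helper86.CM.Defs

/-! # Cat maps, module LAT: saturation and orbit lattices -/

set_option linter.unusedVariables false

open scoped BigOperators

namespace Pool.Agent.helper86.CM

noncomputable section

variable {L : Type} [AddCommGroup L] [Module.Free ℤ L] [Module.Finite ℤ L]

omit [Module.Free ℤ L] [Module.Finite ℤ L] in
theorem satur_sat (M : Submodule ℤ L) : IsSat (satur M) := by
  rintro a z ha ⟨b, hb, hbz⟩
  exact ⟨b * a, mul_ne_zero hb ha, by rw [mul_smul]; exact hbz⟩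

omit [Module.Free ℤ L] [Module.Finite ℤ L] in
theorem le_satur (M : Submodule ℤ L) : M ≤ satur M := fun z hz =>
  ⟨1, one_ne_zero, by simpa using hz⟩

omit [Module.Free ℤ L] [Module.Finite ℤ L] in
theorem satur_le {M Λ : Submodule ℤ L} (h : M ≤ Λ) (hΛ : IsSat Λ) : satur M ≤ Λ := by
  rintro z ⟨a, ha, haz⟩
  exact hΛ a z ha (h haz)

omit [Module.Free ℤ L] [Module.Finite ℤ L] in
theorem LAT_expo (M : Submodule ℤ L) (s : Finset L) (hs : ∀ z ∈ s, z ∈ satur M) :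
    ∃ D : ℕ, 1 ≤ D ∧ ∀ z ∈ Submodule.span ℤ (s : Set L), D • z ∈ M := by
  classical
  induction s using Finset.induction_on with
  | empty =>
    refine ⟨1, le_rfl, fun z hz => ?_⟩
    simp at hz
    subst hz
    simp
  | insert a s has ih =>
    obtain ⟨D, hD, hDs⟩ := ih fun z hz => hs z (Finset.mem_insert_of_mem hz)
    obtain ⟨b, hb, hba⟩ := hs a (Finset.mem_insert_self a s)
    refine ⟨D * b.natAbs, Nat.mul_pos hD (Int.natAbs_pos.2 hb), fun z hz => ?_⟩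
    rw [Finset.coe_insert, Submodule.mem_span_insert] at hz
    obtain ⟨c, w, hw, rfl⟩ := hz
    rw [smul_add]
    refine M.add_mem ?_ ?_
    · have h1 : (b.natAbs • a : L) ∈ M := by
        rcases Int.natAbs_eq b with h | h
        · have : ((b.natAbs : ℤ) • a : L) ∈ M := by rw [← h]; exact hba
          rwa [natCast_zsmul] at this
        · have : (-(b.natAbs : ℤ) • a : L) ∈ M := by rw [← h]; exact hba
          rw [neg_smul, natCast_zsmul] at this
          exact (Submodule.neg_mem_iff M).1 this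
      have h2 : (D * b.natAbs) • c • a = (D : ℤ) • c • (b.natAbs • a) := by
        rw [mul_nsmul', natCast_zsmul, smul_comm c b.natAbs a]
      rw [h2]
      exact M.smul_mem _ (M.smul_mem _ h1)
    · rw [mul_comm, mul_nsmul', ← natCast_zsmul]
      exact M.smul_mem _ (hDs w hw)

omit [Module.Free ℤ L] in
/-- exponent of the saturation -/
theorem satur_expo (M : Submodule ℤ L) : ∃ D : ℕ, 1 ≤ D ∧ ∀ z ∈ satur M, D • z ∈ M := by
  obtain ⟨s, hs⟩ := IsNoetherian.noetherian (satur M)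
  obtain ⟨D, hD, h⟩ := LAT_expo M s fun z hz => by
    rw [← hs]; exact Submodule.subset_span hz
  exact ⟨D, hD, fun z hz => h z (by rw [hs]; exact hz)⟩

omit [Module.Free ℤ L] [Module.Finite ℤ L] in
theorem satur_iso {om : L →ₗ[ℤ] L →ₗ[ℤ] ℤ} {M : Submodule ℤ L} (h : Iso om M) :
    Iso om (satur M) := by
  rintro x ⟨a, ha, hax⟩ y ⟨b, hb, hby⟩
  have h1 := h _ hax _ hby
  simp only [map_smul, LinearMap.smul_apply, smul_eq_mul] at h1
  rcases mul_eq_zero.1 h1 with h2 | h2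
  · exact absurd h2 hb
  · rcases mul_eq_zero.1 h2 with h3 | h3
    · exact absurd h3 ha
    · exact h3

omit [Module.Free ℤ L] [Module.Finite ℤ L] in
theorem Lam_self (B : L ≃ₗ[ℤ] L) (n : L) : n ∈ Lam B n :=
  le_satur _ (Submodule.subset_span ⟨0, by simp⟩)

omit [Module.Free ℤ L] [Module.Finite ℤ L] in
theorem Lam_sat (B : L ≃ₗ[ℤ] L) (n : L) : IsSat (Lam B n) := satur_sat _

omit [Module.Free ℤ L] [Module.Finite ℤ L] in
theorem Lam_inv (B : L ≃ₗ[ℤ] L) (n : L) : ∀ z ∈ Lam B n, B z ∈ Lam B n := by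
  rintro z ⟨a, ha, haz⟩
  refine ⟨a, ha, ?_⟩
  have h1 : Submodule.span ℤ (Set.range fun t : ℤ => (B ^ t) n) ≤
      (Submodule.span ℤ (Set.range fun t : ℤ => (B ^ t) n)).comap (B : L →ₗ[ℤ] L) := by
    rw [Submodule.span_le]
    rintro x ⟨t, rfl⟩
    refine Submodule.subset_span ⟨1 + t, ?_⟩
    simp only [zpow_one_add]
    rfl
  have h2 := h1 haz
  rw [Submodule.mem_comap, map_smul] at h2
  exact h2

omit [Module.Free ℤ L] in
/-- an invariant lattice is invariant under the inverse -/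
theorem LAT_symm (B : L ≃ₗ[ℤ] L) (Λ : Submodule ℤ L) (hB : ∀ z ∈ Λ, B z ∈ Λ) :
    ∀ z ∈ Λ, B.symm z ∈ Λ := by
  have hmono : Monotone (fun k : ℕ => Λ.comap ((B ^ k : L ≃ₗ[ℤ] L) : L →ₗ[ℤ] L)) := by
    refine monotone_nat_of_le_succ fun k z hz => ?_
    rw [Submodule.mem_comap] at hz ⊢
    have := hB _ hz
    rw [pow_succ']
    exact this
  obtain ⟨n, hn⟩ := monotone_stabilizes_iff_noetherian.2 (inferInstance : IsNoetherian ℤ L)
    ⟨_, hmono⟩
  intro z hz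
  have h1 := hn (n + 1) (Nat.le_succ n)
  change Λ.comap ((B ^ n : L ≃ₗ[ℤ] L) : L →ₗ[ℤ] L) =
    Λ.comap ((B ^ (n + 1) : L ≃ₗ[ℤ] L) : L →ₗ[ℤ] L) at h1
  have h2 : (B ^ n).symm (B.symm z) ∈ Λ.comap ((B ^ (n + 1) : L ≃ₗ[ℤ] L) : L →ₗ[ℤ] L) := by
    rw [Submodule.mem_comap, pow_succ']
    change B ((B ^ n) ((B ^ n).symm (B.symm z))) ∈ Λ
    rw [LinearEquiv.apply_symm_apply, LinearEquiv.apply_symm_apply]
    exact hz
  rw [← h1, Submodule.mem_comap] at h2
  change (B ^ n) ((B ^ n).symm (B.symm z)) ∈ Λ at h2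
  rwa [LinearEquiv.apply_symm_apply] at h2

omit [Module.Free ℤ L] in
/-- an invariant saturated lattice is invariant under the inverse -/
theorem sat_symm (B : L ≃ₗ[ℤ] L) (Λ : Submodule ℤ L) (hΛ : IsSat Λ) (hB : ∀ z ∈ Λ, B z ∈ Λ) :
    ∀ z ∈ Λ, B.symm z ∈ Λ := LAT_symm B Λ hB

omit [Module.Free ℤ L] [Module.Finite ℤ L] in
theorem LAT_pow (B : L ≃ₗ[ℤ] L) (Λ : Submodule ℤ L) (hB : ∀ z ∈ Λ, B z ∈ Λ) (k : ℕ) :
    ∀ z ∈ Λ, (B ^ k) z ∈ Λ := by
  induction k with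
  | zero => intro z hz; simpa using hz
  | succ k ih =>
    intro z hz
    rw [pow_succ']
    exact hB _ (ih z hz)

omit [Module.Free ℤ L] in
theorem LAT_zpow (B : L ≃ₗ[ℤ] L) (Λ : Submodule ℤ L) (hB : ∀ z ∈ Λ, B z ∈ Λ) (t : ℤ) :
    ∀ z ∈ Λ, (B ^ t) z ∈ Λ := by
  intro z hz
  cases t with
  | ofNat k =>
    rw [Int.ofNat_eq_natCast, zpow_natCast]
    exact LAT_pow B Λ hB k z hz
  | negSucc k =>
    rw [zpow_negSucc, ← inv_pow]
    exact LAT_pow B⁻¹ Λ (LAT_symm B Λ hB) (k + 1) z hz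

omit [Module.Free ℤ L] in
theorem Lam_min (B : L ≃ₗ[ℤ] L) (n : L) (Λ : Submodule ℤ L) (hΛ : IsSat Λ)
    (hB : ∀ z ∈ Λ, B z ∈ Λ) (hn : n ∈ Λ) : Lam B n ≤ Λ := by
  refine satur_le ?_ hΛ
  rw [Submodule.span_le]
  rintro x ⟨t, rfl⟩
  exact LAT_zpow B Λ hB t n hn

omit [Module.Free ℤ L] [Module.Finite ℤ L] in
theorem LAT_om_pow {om : L →ₗ[ℤ] L →ₗ[ℤ] ℤ} (B : L ≃ₗ[ℤ] L)
    (hom : ∀ x y, om (B x) (B y) = om x y) (k : ℕ) (x y : L) :
    om ((B ^ k) x) ((B ^ k) y) = om x y := by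
  induction k with
  | zero => simp
  | succ k ih =>
    rw [pow_succ']
    change om (B ((B ^ k) x)) (B ((B ^ k) y)) = _
    rw [hom, ih]

omit [Module.Free ℤ L] [Module.Finite ℤ L] in
theorem LAT_om_zpow {om : L →ₗ[ℤ] L →ₗ[ℤ] ℤ} (B : L ≃ₗ[ℤ] L)
    (hom : ∀ x y, om (B x) (B y) = om x y) (t : ℤ) (x y : L) :
    om ((B ^ t) x) ((B ^ t) y) = om x y := by
  cases t with
  | ofNat k =>
    rw [Int.ofNat_eq_natCast, zpow_natCast]
    exact LAT_om_pow B hom k x y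
  | negSucc k =>
    rw [zpow_negSucc, ← inv_pow]
    refine LAT_om_pow B⁻¹ (fun x y => ?_) (k + 1) x y
    rw [← hom (B⁻¹ x) (B⁻¹ y)]
    change om (B (B.symm x)) (B (B.symm y)) = _
    rw [LinearEquiv.apply_symm_apply, LinearEquiv.apply_symm_apply]

omit [Module.Free ℤ L] [Module.Finite ℤ L] in
/-- if `n` is orthogonal to its orbit lattice, this lattice is isotropic -/
theorem Lam_iso {om : L →ₗ[ℤ] L →ₗ[ℤ] ℤ} (alt : ∀ z, om z z = 0) (B : L ≃ₗ[ℤ] L)
    (hom : ∀ x y, om (B x) (B y) = om x y) (n : L) (h : ∀ m ∈ Lam B n, om m n = 0) :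
    Iso om (Lam B n) := by
  refine satur_iso ?_
  have hgen : ∀ s t : ℤ, om ((B ^ s) n) ((B ^ t) n) = 0 := by
    intro s t
    have h1 : (B ^ s) n = (B ^ t) ((B ^ (s - t)) n) := by
      have : B ^ s = B ^ t * B ^ (s - t) := by
        rw [← zpow_add]; congr 1; ring
      rw [this]; rfl
    rw [h1, LAT_om_zpow B hom t]
    exact h _ (le_satur _ (Submodule.subset_span ⟨s - t, rfl⟩))
  have hone : ∀ t : ℤ, ∀ x ∈ Submodule.span ℤ (Set.range fun t : ℤ => (B ^ t) n),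
      om x ((B ^ t) n) = 0 := by
    intro t x hx
    have : Submodule.span ℤ (Set.range fun t : ℤ => (B ^ t) n) ≤
        LinearMap.ker (om.flip ((B ^ t) n)) := by
      rw [Submodule.span_le]
      rintro y ⟨s, rfl⟩
      simpa using hgen s t
    simpa using this hx
  intro x hx y hy
  have : Submodule.span ℤ (Set.range fun t : ℤ => (B ^ t) n) ≤ LinearMap.ker (om x) := by
    rw [Submodule.span_le]
    rintro y ⟨s, rfl⟩
    simpa using hone s x hx
  simpa using this hy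

end

end Pool.Agent.helper86.CM
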