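import Pool.Agent.helper35.CM.EXT

/-! # Cat maps, module ME: scar functions are Fourier transforms of probability measures -/

open scoped BigOperators
open MeasureTheory

namespace Pool.Agent.helper86.CM

noncomputable section

/-- the endomorphism of tori dual to a linear map of lattices -/
def ME_dual {ι κ : Type} [Fintype ι] [Fintype κ] [DecidableEq ι] (f : (ι → ℤ) →ₗ[ℤ] (κ → ℤ))
    (y : UnitAddTorus κ) : UnitAddTorus ι :=
  fun i => ∑ j, (f (Pi.single i 1) j) • y j

theorem ME_dual_cont {ι κ : Type} [Fintype ι] [Fintype κ] [DecidableEq ι]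
    (f : (ι → ℤ) →ₗ[ℤ] (κ → ℤ)) : Continuous (ME_dual f) := by
  unfold ME_dual
  fun_prop

theorem ME_four_add (a b : UnitAddCircle) : (fourier 1 (a + b) : ℂ) = fourier 1 a * fourier 1 b := by
  rw [fourier_one, fourier_one, fourier_one, AddCircle.toCircle_add]
  simp

theorem ME_four_zsmul (a : UnitAddCircle) (n : ℤ) :
    (fourier 1 (n • a) : ℂ) = (fourier 1 a) ^ n := by
  rw [fourier_one, fourier_one, AddCircle.toCircle_zsmul]
  simp

theorem ME_four_ne (a : UnitAddCircle) : (fourier 1 a : ℂ) ≠ 0 := by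
  rw [fourier_one]
  exact Circle.coe_ne_zero _

theorem ME_four_sum {κ : Type} (s : Finset κ) (a : κ → UnitAddCircle) :
    (fourier 1 (∑ j ∈ s, a j) : ℂ) = ∏ j ∈ s, fourier 1 (a j) := by
  classical
  induction s using Finset.induction_on with
  | empty => simp
  | insert i s hi ih => rw [Finset.sum_insert hi, Finset.prod_insert hi, ME_four_add, ih]

/-- duality -/
theorem ME_dual_apply {ι κ : Type} [Fintype ι] [Fintype κ] [DecidableEq ι]
    (f : (ι → ℤ) →ₗ[ℤ] (κ → ℤ)) (y : UnitAddTorus κ) (n : ι → ℤ) :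
    UnitAddTorus.mFourier n (ME_dual f y) = UnitAddTorus.mFourier (f n) y := by
  rw [EXT_mFourier, EXT_mFourier]
  simp only [ME_dual, ME_four_sum, ME_four_zsmul]
  have h1 : ∀ j, f n j = ∑ i, n i * f (Pi.single i 1) j := by
    intro j
    have h2 : n = ∑ i, (n i) • (Pi.single i (1 : ℤ) : ι → ℤ) := by
      funext k
      simp [Finset.sum_apply, Pi.single_apply]
    conv_lhs => rw [h2]
    rw [map_sum, Finset.sum_apply]
    exact Finset.sum_congr rfl fun i _ => by rw [map_smul, Pi.smul_apply, smul_eq_mul]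
  have h3 : ∀ j, (fourier 1 (y j) : ℂ) ^ (f n j) =
      ∏ i, (fourier 1 (y j) : ℂ) ^ (n i * f (Pi.single i 1) j) := by
    intro j
    rw [h1 j]
    have : ∀ s : Finset ι, (fourier 1 (y j) : ℂ) ^ (∑ i ∈ s, n i * f (Pi.single i 1) j) =
        ∏ i ∈ s, (fourier 1 (y j) : ℂ) ^ (n i * f (Pi.single i 1) j) := by
      intro s
      induction s using Finset.induction_on with
      | empty => simp
      | insert i s hi ih =>
        rw [Finset.sum_insert hi, Finset.prod_insert hi, zpow_add₀ (ME_four_ne _), ih]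
    exact this _
  simp only [h3]
  rw [Finset.prod_comm]
  refine Finset.prod_congr rfl fun i _ => ?_
  rw [← Finset.prod_zpow]
  refine Finset.prod_congr rfl fun j _ => ?_
  rw [← zpow_mul, mul_comm]

theorem ME_add {ι : Type} [Fintype ι] (n : ι → ℤ) (x y : UnitAddTorus ι) :
    UnitAddTorus.mFourier n (x + y) = UnitAddTorus.mFourier n x * UnitAddTorus.mFourier n y := by
  rw [EXT_mFourier, EXT_mFourier, EXT_mFourier, ← Finset.prod_mul_distrib]
  refine Finset.prod_congr rfl fun i _ => ?_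
  rw [Pi.add_apply, ME_four_add, mul_zpow]

/-- the Haar measure of the torus -/
def ME_H (κ : Type) [Fintype κ] : Measure (UnitAddTorus κ) :=
  Measure.pi fun _ : κ => (AddCircle.haarAddCircle : Measure UnitAddCircle)

instance ME_prob (κ : Type) [Fintype κ] : IsProbabilityMeasure (ME_H κ) := by
  unfold ME_H
  infer_instance

/-- the Fourier transform of the Haar measure -/
theorem ME_haar {κ : Type} [Fintype κ] (m : κ → ℤ) :
    ∫ y : UnitAddTorus κ, UnitAddTorus.mFourier m y ∂(ME_H κ) = if m = 0 then 1 else 0 := by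
  classical
  have h := (orthonormal_iff_ite.mp (UnitAddTorus.orthonormal_mFourier (d := κ))) 0 m
  simp only [UnitAddTorus.mFourierLp, ContinuousMap.inner_toLp, ← UnitAddTorus.mFourier_neg,
    ← UnitAddTorus.mFourier_add] at h
  simp only [neg_zero, add_zero] at h
  have h' : ∫ y : UnitAddTorus κ, UnitAddTorus.mFourier m y ∂(ME_H κ) =
    if 0 = m then 1 else 0 := h
  rw [h']
  simp only [eq_comm]

theorem ME (g : ℕ) (Λ : Submodule ℤ (Lat g)) (hΛ : IsSat Λ) (x : UnitAddTorus (Fin g ⊕ Fin g)) :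
    ∃ μ : MeasureTheory.Measure (UnitAddTorus (Fin g ⊕ Fin g)),
      MeasureTheory.IsProbabilityMeasure μ ∧ ∀ n : Lat g,
        ∫ y, UnitAddTorus.mFourier n y ∂μ =
          (open Classical in if n ∈ Λ then UnitAddTorus.mFourier n x else 0) := by
  classical
  have := EXT_free Λ hΛ
  let b := Module.Free.chooseBasis ℤ (Lat g ⧸ Λ)
  let f : Lat g →ₗ[ℤ] (Module.Free.ChooseBasisIndex ℤ (Lat g ⧸ Λ) → ℤ) :=
    (b.equivFun : (Lat g ⧸ Λ) →ₗ[ℤ] _) ∘ₗ Λ.mkQ
  have hf : ∀ n, f n = 0 ↔ n ∈ Λ := by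
    intro n
    change b.equivFun (Λ.mkQ n) = 0 ↔ _
    rw [map_eq_zero_iff _ (LinearEquiv.injective _)]
    exact Submodule.Quotient.mk_eq_zero Λ
  have hcont : Continuous (fun y => x + ME_dual f y) := continuous_const.add (ME_dual_cont f)
  refine ⟨(ME_H _).map (fun y => x + ME_dual f y),
    Measure.isProbabilityMeasure_map hcont.measurable.aemeasurable, fun n => ?_⟩
  rw [integral_map hcont.measurable.aemeasurable
    (UnitAddTorus.mFourier n).continuous.aestronglyMeasurable]
  simp only [ME_add, ME_dual_apply]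
  rw [integral_const_mul, ME_haar]
  simp only [hf]
  split_ifs <;> simp

theorem ME_int {ι : Type} [Fintype ι] (n : ι → ℤ) (μ : Measure (UnitAddTorus ι))
    [IsFiniteMeasure μ] : Integrable (fun y => UnitAddTorus.mFourier n y) μ := by
  refine Integrable.of_bound (UnitAddTorus.mFourier n).continuous.aestronglyMeasurable 1
    (Filter.Eventually.of_forall fun y => ?_)
  exact ((UnitAddTorus.mFourier n).norm_coe_le_norm y).trans_eq UnitAddTorus.mFourier_norm

/-- the Fourier transforms of probability measures form a convex set -/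
theorem ME_convex (ι : Type) [Fintype ι] : Convex ℝ {F : (ι → ℤ) → ℂ |
    ∃ μ : Measure (UnitAddTorus ι), IsProbabilityMeasure μ ∧ ∀ n : ι → ℤ,
      ∫ y, UnitAddTorus.mFourier n y ∂μ = F n} := by
  rintro F ⟨μ, hμ, hF⟩ G ⟨ν, hν, hG⟩ a b ha hb hab
  refine ⟨ENNReal.ofReal a • μ + ENNReal.ofReal b • ν, ⟨?_⟩, fun n => ?_⟩
  · rw [Measure.add_apply, Measure.smul_apply, Measure.smul_apply, measure_univ, measure_univ,
      smul_eq_mul, smul_eq_mul, mul_one, mul_one, ← ENNReal.ofReal_add ha hb, hab,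
      ENNReal.ofReal_one]
  · have h1 : Integrable (fun y => UnitAddTorus.mFourier n y) (ENNReal.ofReal a • μ) :=
      (ME_int n μ).smul_measure ENNReal.ofReal_ne_top
    have h2 : Integrable (fun y => UnitAddTorus.mFourier n y) (ENNReal.ofReal b • ν) :=
      (ME_int n ν).smul_measure ENNReal.ofReal_ne_top
    rw [integral_add_measure h1 h2, integral_smul_measure, integral_smul_measure, hF, hG,
      ENNReal.toReal_ofReal ha, ENNReal.toReal_ofReal hb]
    rfl

theorem MEav (g p : ℕ) (A : Matrix (Fin g ⊕ Fin g) (Fin g ⊕ Fin g) ℤ) (F : Lat g → ℂ)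
    (hF : F ∈ Scars p A) :
    ∃ μ : MeasureTheory.Measure (UnitAddTorus (Fin g ⊕ Fin g)),
      MeasureTheory.IsProbabilityMeasure μ ∧ ∀ n : Lat g,
        ∫ y, UnitAddTorus.mFourier n y ∂μ = F n := by
  classical
  obtain ⟨m, Λ, x, hm, hsat, -, -, -, -, hFn⟩ := hF
  obtain ⟨μ, hμ, hμn⟩ := ME g Λ hsat x
  have h1 : ∀ t : ℕ, (fun n : Lat g => if (A ^ t).mulVec n ∈ Λ then
      UnitAddTorus.mFourier ((A ^ t).mulVec n) x else 0) ∈ {F : Lat g → ℂ |
        ∃ μ : Measure (UnitAddTorus (Fin g ⊕ Fin g)), IsProbabilityMeasure μ ∧ ∀ n : Lat g,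
          ∫ y, UnitAddTorus.mFourier n y ∂μ = F n} := by
    intro t
    have hcont := ME_dual_cont (A ^ t).mulVecLin
    refine ⟨μ.map (ME_dual (A ^ t).mulVecLin),
      Measure.isProbabilityMeasure_map hcont.measurable.aemeasurable, fun n => ?_⟩
    rw [integral_map hcont.measurable.aemeasurable
      (UnitAddTorus.mFourier n).continuous.aestronglyMeasurable]
    simp only [ME_dual_apply]
    rw [hμn]
    rfl
  have h2 := Convex.sum_mem (ME_convex (Fin g ⊕ Fin g)) (t := Finset.range m)
    (w := fun _ => (m : ℝ)⁻¹) (fun _ _ => by positivity) (by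
      rw [Finset.sum_const, Finset.card_range, nsmul_eq_mul, mul_inv_cancel₀]
      exact_mod_cast hm.ne') (fun t _ => h1 t)
  have h3 : F = ∑ t ∈ Finset.range m, (m : ℝ)⁻¹ • (fun n : Lat g =>
      if (A ^ t).mulVec n ∈ Λ then UnitAddTorus.mFourier ((A ^ t).mulVec n) x else 0) := by
    funext n
    rw [hFn, Finset.sum_apply, Finset.mul_sum]
    refine Finset.sum_congr rfl fun t _ => ?_
    rw [Pi.smul_apply, Complex.real_smul]
    push_cast
    congr 1
  rw [← h3] at h2
  exact h2

end

end Pool.Agent.helper86.CM
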