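import Pool.Agent.helper35.CM.ME

/-! # Cat maps, module MEC: the closed convex hull of the scar functions -/

open scoped BigOperators Topology
open MeasureTheory

namespace Pool.Agent.helper86.CM

noncomputable section

theorem MEC_cont {ι : Type} [Fintype ι] : Continuous
    (fun (μ : ProbabilityMeasure (UnitAddTorus ι)) (n : ι → ℤ) =>
      ∫ y, UnitAddTorus.mFourier n y ∂(μ : Measure (UnitAddTorus ι))) := by
  refine continuous_pi fun n => ?_
  rw [continuous_iff_continuousAt]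
  intro μ
  have h := (ProbabilityMeasure.tendsto_iff_forall_integral_rclike_tendsto ℂ
    (μs := fun ν : ProbabilityMeasure (UnitAddTorus ι) => ν) (F := 𝓝 μ) (μ := μ)).1
    Filter.tendsto_id (BoundedContinuousFunction.mkOfCompact (UnitAddTorus.mFourier n))
  exact h

theorem MEC_closed (ι : Type) [Fintype ι] : IsClosed {F : (ι → ℤ) → ℂ |
    ∃ μ : Measure (UnitAddTorus ι), IsProbabilityMeasure μ ∧ ∀ n : ι → ℤ,
      ∫ y, UnitAddTorus.mFourier n y ∂μ = F n} := by
  have h : {F : (ι → ℤ) → ℂ | ∃ μ : Measure (UnitAddTorus ι), IsProbabilityMeasure μ ∧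
      ∀ n : ι → ℤ, ∫ y, UnitAddTorus.mFourier n y ∂μ = F n} =
      Set.range (fun (μ : ProbabilityMeasure (UnitAddTorus ι)) (n : ι → ℤ) =>
        ∫ y, UnitAddTorus.mFourier n y ∂(μ : Measure (UnitAddTorus ι))) := by
    ext F
    constructor
    · rintro ⟨μ, hμ, hF⟩
      exact ⟨⟨μ, hμ⟩, funext hF⟩
    · rintro ⟨μ, rfl⟩
      exact ⟨μ, μ.2, fun n => rfl⟩
  rw [h]
  exact (isCompact_range MEC_cont).isClosed

theorem MEC (g p : ℕ) (A : Matrix (Fin g ⊕ Fin g) (Fin g ⊕ Fin g) ℤ) (F : Lat g → ℂ)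
    (hF : F ∈ closure (convexHull ℝ (Scars p A))) :
    ∃ μ : MeasureTheory.Measure (UnitAddTorus (Fin g ⊕ Fin g)),
      MeasureTheory.IsProbabilityMeasure μ ∧ ∀ n : Lat g,
        ∫ y, UnitAddTorus.mFourier n y ∂μ = F n :=
  closure_minimal (convexHull_min (fun G hG => MEav g p A G hG) (ME_convex _))
    (MEC_closed _) hF

end

end Pool.Agent.helper86.CM
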