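import Pool.Agent.helper35.CM.LAT
import Pool.Agent.helper10.CM.PER

/-! # Cat maps, module AR: powers of `B` near the identity -/

set_option linter.unusedVariables false

open scoped BigOperators

namespace Pool.Agent.helper86.CM

noncomputable section

variable {L : Type} [AddCommGroup L] [Module.Free ℤ L] [Module.Finite ℤ L]

/-! binomial -/

theorem AR_binom {R : Type*} [CommRing R] (a : R) (n : ℕ) :
    ∃ s : R, (1 + a) ^ n = 1 + n * a + (n.choose 2 : ℕ) * a ^ 2 + a ^ 3 * s := by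
  induction n with
  | zero => exact ⟨0, by simp⟩
  | succ n ih =>
    obtain ⟨s, hs⟩ := ih
    refine ⟨(n.choose 2 : ℕ) + s + s * a, ?_⟩
    rw [pow_succ, hs, Nat.choose_succ_succ' n 1, Nat.choose_one_right]
    push_cast
    ring

theorem AR_step {R : Type*} [CommRing R] (p i : ℕ) (hp : Odd p) (hi : 1 ≤ i) (x : R) :
    ∃ w : R, (1 + 2 * (p : R) ^ i * x) ^ p = 1 + 2 * (p : R) ^ (i + 1) * (x * (1 + p * w)) := by
  obtain ⟨s, hs⟩ := AR_binom (2 * (p : R) ^ i * x) p
  obtain ⟨m, hm⟩ := hp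
  obtain ⟨j, rfl⟩ := Nat.exists_eq_add_of_le' hi
  have hc : p.choose 2 = p * m := by
    rw [Nat.choose_two_right]
    have : p * (p - 1) = 2 * (p * m) := by
      rw [hm]; simp; ring
    rw [this]
    simp
  refine ⟨2 * m * (p : R) ^ j * x + 4 * (p : R) ^ (2 * j) * x ^ 2 * s, ?_⟩
  rw [hs, hc]
  push_cast
  have : (p : R) ^ (2 * j) = (p : R) ^ j * (p : R) ^ j := by rw [two_mul, pow_add]
  rw [this]
  ring

/-! Cayley-Hamilton -/

theorem AR_cayley (f : Module.End ℤ L) :
    ∃ q : Polynomial ℤ, f * Polynomial.aeval f q = (LinearMap.det f) • (1 : Module.End ℤ L) := by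
  have h1 := LinearMap.aeval_self_charpoly f
  have h2 := Polynomial.divX_mul_X_add f.charpoly
  rw [← h2, map_add, map_mul, Polynomial.aeval_X, Polynomial.aeval_C] at h1
  have h3 := LinearMap.det_eq_sign_charpoly_coeff f
  have hcomm : Polynomial.aeval f f.charpoly.divX * f = f * Polynomial.aeval f f.charpoly.divX := by
    have : Polynomial.aeval f (f.charpoly.divX * Polynomial.X) =
        Polynomial.aeval f (Polynomial.X * f.charpoly.divX) := by rw [mul_comm]
    simpa using this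
  refine ⟨-(Polynomial.C ((-1) ^ (Module.finrank ℤ L)) * f.charpoly.divX), ?_⟩
  rw [map_neg, map_mul, Polynomial.aeval_C, h3]
  rw [hcomm] at h1
  have h4 : f * Polynomial.aeval f f.charpoly.divX = -(algebraMap ℤ (Module.End ℤ L)
      (f.charpoly.coeff 0)) := eq_neg_of_add_eq_zero_left h1
  rw [mul_neg, ← mul_assoc, ← (Algebra.commutes _ f), mul_assoc, h4]
  rw [mul_neg, neg_neg, ← map_mul, Algebra.algebraMap_eq_smul_one]

theorem AR_det_ne_zero (f : Module.End ℤ L) (hf : ∀ z, f z = 0 → z = 0) :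
    LinearMap.det f ≠ 0 := by
  intro h0
  let b := Module.Free.chooseBasis ℤ L
  classical
  rw [← LinearMap.det_toMatrix b] at h0
  obtain ⟨v, hv, hv2⟩ := Matrix.exists_mulVec_eq_zero_iff.2 h0
  apply hv
  have h1 : f (b.equivFun.symm v) = 0 := by
    apply b.repr.injective
    ext i
    have h2 := LinearMap.toMatrix_mulVec_repr b b f (b.equivFun.symm v)
    have h3 : (⇑(b.repr (b.equivFun.symm v)) : _ → ℤ) = v := by
      funext j
      rw [← Module.Basis.equivFun_apply, LinearEquiv.apply_symm_apply]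
    rw [h3, hv2] at h2
    rw [← h2]
    simp
  have h4 := hf _ h1
  rw [map_eq_zero_iff _ (LinearEquiv.injective _)] at h4
  exact h4

theorem AR_det_one_add (p : ℕ) (g : Module.End ℤ L) :
    ∃ k : ℤ, LinearMap.det (1 + (p : ℤ) • g) = 1 + p * k := by
  classical
  let b := Module.Free.chooseBasis ℤ L
  have h1 : ((LinearMap.det (1 + (p : ℤ) • g) : ℤ) : ZMod p) = 1 := by
    rw [← LinearMap.det_toMatrix b]
    change Int.castRingHom (ZMod p) _ = 1
    rw [RingHom.map_det]
    have : (Int.castRingHom (ZMod p)).mapMatrix (LinearMap.toMatrix b b (1 + (p : ℤ) • g)) = 1 := by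
      rw [map_add, map_smul, LinearMap.toMatrix_one]
      ext i j
      rw [RingHom.mapMatrix_apply, Matrix.map_apply, Matrix.add_apply, Matrix.smul_apply,
        smul_eq_mul, map_add, map_mul]
      have h0 : (Int.castRingHom (ZMod p)) (p : ℤ) = 0 := by simp
      rw [h0, zero_mul, add_zero]
      simp [Matrix.one_apply]
    rw [this, Matrix.det_one]
  have h2 : ((LinearMap.det (1 + (p : ℤ) • g) - 1 : ℤ) : ZMod p) = 0 := by
    push_cast
    rw [h1, sub_self]
  obtain ⟨k, hk⟩ := (ZMod.intCast_zmod_eq_zero_iff_dvd _ p).1 h2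
  exact ⟨k, by linarith⟩

omit [Module.Free ℤ L] [Module.Finite ℤ L] in
theorem AR_poly_mem (f : Module.End ℤ L) (Λ : Submodule ℤ L) (h : ∀ z ∈ Λ, f z ∈ Λ)
    (q : Polynomial ℤ) : ∀ z ∈ Λ, (Polynomial.aeval f q) z ∈ Λ := by
  induction q using Polynomial.induction_on' with
  | add a b ha hb =>
    intro z hz
    rw [map_add, LinearMap.add_apply]
    exact Λ.add_mem (ha z hz) (hb z hz)
  | monomial n a =>
    intro z hz
    rw [Polynomial.aeval_monomial, Module.End.mul_apply]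
    have : ∀ k : ℕ, ∀ z ∈ Λ, (f ^ k) z ∈ Λ := by
      intro k
      induction k with
      | zero => intro z hz; simpa using hz
      | succ k ih =>
        intro z hz
        rw [pow_succ', Module.End.mul_apply]
        exact h _ (ih z hz)
    rw [Module.algebraMap_end_apply]
    exact Λ.smul_mem _ (this n z hz)

theorem AR_polystep (p i : ℕ) (hp : Odd p) (hi : 1 ≤ i) (r : Polynomial ℤ) :
    ∃ r' : Polynomial ℤ,
      (1 + 2 * (p : Polynomial ℤ) ^ i * (Polynomial.X * (1 + (p : Polynomial ℤ) * r))) ^ p =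
        1 + 2 * (p : Polynomial ℤ) ^ (i + 1) * (Polynomial.X * (1 + (p : Polynomial ℤ) * r')) := by
  obtain ⟨w, hw⟩ := AR_step p i hp hi
    ((Polynomial.X * (1 + (p : Polynomial ℤ) * r)) : Polynomial ℤ)
  refine ⟨r + w + p * r * w, ?_⟩
  rw [hw]
  ring

/-- evaluation of the polynomials of the induction -/
theorem AR_eval {L : Type} [AddCommGroup L] (p i : ℕ) (f : Module.End ℤ L) (r : Polynomial ℤ)
    (z : L) :
    (Polynomial.aeval f (1 + 2 * (p : Polynomial ℤ) ^ i *
      (Polynomial.X * (1 + (p : Polynomial ℤ) * r)))) z =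
      z + (2 * p ^ i) • (f * (1 + (p : ℤ) • Polynomial.aeval f r)) z := by
  have h2 : (Polynomial.aeval f) (2 : Polynomial ℤ) = ((2 : ℕ) : Module.End ℤ L) := by
    rw [show (2 : Polynomial ℤ) = ((2 : ℕ) : Polynomial ℤ) by norm_num, map_natCast]
  have h3 : ((p : ℤ) • (Polynomial.aeval f r) : Module.End ℤ L) =
      (p : Module.End ℤ L) * Polynomial.aeval f r := by
    rw [← Int.cast_natCast (R := Module.End ℤ L) p, ← zsmul_eq_mul]
  rw [map_add, map_one, map_mul, map_mul, map_mul, map_add, map_mul, map_pow, map_one,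
    Polynomial.aeval_X, map_natCast, LinearMap.add_apply, Module.End.one_apply, h2, h3,
    ← Nat.cast_pow, ← Nat.cast_mul, ← nsmul_eq_mul, LinearMap.smul_apply]

theorem AR_coe_pow {L : Type} [AddCommGroup L] (B : L ≃ₗ[ℤ] L) (k : ℕ) (z : L) :
    (B ^ k) z = ((B : Module.End ℤ L) ^ k) z := by
  induction k generalizing z with
  | zero => rfl
  | succ k ih =>
    rw [pow_succ, pow_succ, Module.End.mul_apply, ← ih]
    rfl

theorem AR_all {L : Type} [AddCommGroup L] (p : ℕ) (hp : Odd p) (hpos : 0 < p) (B : L ≃ₗ[ℤ] L)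
    (X₁ : Module.End ℤ L) (e₁ : ℕ) (he₁ : 1 ≤ e₁) (hX : ∀ z, (B ^ e₁) z = z + (2 * p) • X₁ z) :
    ∀ i : ℕ, 1 ≤ i → ∃ e : ℕ, 1 ≤ e ∧ ∃ r : Polynomial ℤ,
      (B : Module.End ℤ L) ^ e = Polynomial.aeval X₁
        (1 + 2 * (p : Polynomial ℤ) ^ i * (Polynomial.X * (1 + (p : Polynomial ℤ) * r))) := by
  intro i hi
  induction i, hi using Nat.le_induction with
  | base =>
    refine ⟨e₁, he₁, 0, LinearMap.ext fun z => ?_⟩
    rw [← AR_coe_pow, hX, AR_eval]
    simp
  | succ i hi ih =>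
    obtain ⟨e, he, r, hr⟩ := ih
    obtain ⟨r', hr'⟩ := AR_polystep p i hp hi r
    refine ⟨e * p, Nat.mul_pos he hpos, r', ?_⟩
    rw [pow_mul, hr, ← map_pow, hr']

theorem AR (p : ℕ) [Fact p.Prime] (hp : p ≠ 2) (B : L ≃ₗ[ℤ] L) (hB : Erg B) :
    ∃ c : ℕ, ∀ i : ℕ, 1 ≤ i → ∃ (e u : ℕ) (X : L →ₗ[ℤ] L), ARdata p B c i e u X := by
  have hprime : p.Prime := Fact.out
  have hodd : Odd p := hprime.odd_of_ne_two hp
  have htf : ∀ (a : ℤ), a ≠ 0 → ∀ x y : L, a • x = a • y → x = y := by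
    intro a ha x y hxy
    exact smul_right_injective L ha hxy
  -- the first power
  obtain ⟨e₁, he₁, hper⟩ := PER B (2 * p) (by have := hprime.pos; omega)
  choose Y hY using hper
  have h2p : ((2 * p : ℕ) : ℤ) ≠ 0 := by
    have := hprime.pos
    push_cast
    positivity
  let X₁ : Module.End ℤ L :=
    { toFun := Y
      map_add' := by
        intro x y
        apply htf _ h2p
        rw [smul_add, natCast_zsmul, natCast_zsmul, natCast_zsmul]
        have h1 := hY (x + y)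
        rw [map_add, hY x, hY y] at h1
        have h2 : x + y + (2 * p) • Y (x + y) = x + y + ((2 * p) • Y x + (2 * p) • Y y) := by
          rw [← h1]; abel
        exact add_left_cancel h2
      map_smul' := by
        intro a x
        apply htf _ h2p
        rw [RingHom.id_apply, natCast_zsmul, smul_comm, natCast_zsmul]
        have h1 := hY (a • x)
        rw [map_smul, hY x, smul_add] at h1
        exact (add_left_cancel h1).symm }
  have hX₁ : ∀ z, (B ^ e₁) z = z + (2 * p) • X₁ z := hY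
  have hX₁inj : ∀ z, X₁ z = 0 → z = 0 := by
    intro z hz
    refine hB e₁ he₁ z ?_
    rw [hX₁, hz]
    simp
  have hX₁mem : ∀ Λ : Submodule ℤ L, IsSat Λ → (∀ z ∈ Λ, B z ∈ Λ) → ∀ z ∈ Λ, X₁ z ∈ Λ := by
    intro Λ hΛ hBΛ z hz
    refine hΛ ((2 * p : ℕ) : ℤ) (X₁ z) h2p ?_
    have h1 : ((2 * p : ℕ) : ℤ) • X₁ z = (B ^ e₁) z - z := by
      rw [hX₁, natCast_zsmul]; abel
    rw [h1]
    exact Λ.sub_mem (LAT_pow B Λ hBΛ e₁ z hz) hz
  -- all the powers
  have hall := AR_all p hodd hprime.pos B X₁ e₁ he₁ hX₁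
  have hdet := AR_det_ne_zero X₁ hX₁inj
  obtain ⟨c, u₁, hu₁, hcu⟩ := Nat.exists_eq_pow_mul_and_not_dvd
    (n := (LinearMap.det X₁).natAbs) (Int.natAbs_ne_zero.2 hdet) p hprime.ne_one
  have hcop₁ : Nat.Coprime u₁ p := ((Nat.Prime.coprime_iff_not_dvd hprime).2 hu₁).symm
  refine ⟨c, fun i hi => ?_⟩
  obtain ⟨e, he, r, hr⟩ := hall i hi
  set W : Module.End ℤ L := 1 + (p : ℤ) • Polynomial.aeval X₁ r with hW
  obtain ⟨k, hk⟩ := AR_det_one_add (L := L) p (Polynomial.aeval X₁ r)
  obtain ⟨q₁, hq₁⟩ := AR_cayley X₁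
  obtain ⟨q₂, hq₂⟩ := AR_cayley W
  have hcop₂ : Nat.Coprime (LinearMap.det W).natAbs p := by
    rw [Nat.coprime_comm, Nat.Prime.coprime_iff_not_dvd hprime]
    intro hdvd
    rw [← Int.natCast_dvd] at hdvd
    rw [hW, hk] at hdvd
    have h1 : (p : ℤ) ∣ 1 := by
      have := dvd_sub hdvd (Dvd.intro k rfl : (p : ℤ) ∣ p * k)
      simpa using this
    have h2 := Int.isUnit_iff.1 (isUnit_of_dvd_one h1)
    have h3 := hprime.one_lt
    omega
  have hpow : ∀ z, (B ^ e) z = z + (2 * p ^ i) • (X₁ * W) z := by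
    intro z
    rw [AR_coe_pow, hr, AR_eval]
  have h2pi : ((2 * p ^ i : ℕ) : ℤ) ≠ 0 :=
    Int.natCast_ne_zero.2 (Nat.mul_pos two_pos (pow_pos hprime.pos i)).ne'
  refine ⟨e, u₁ * (LinearMap.det W).natAbs, X₁ * W, he, hpow, fun z => ?_,
    Nat.Coprime.mul_left hcop₁ hcop₂, fun Λ hΛ hBΛ z hz => ?_⟩
  · apply htf _ h2pi
    rw [natCast_zsmul, natCast_zsmul]
    have h1 := hpow (B z)
    have h2 : (B ^ e) (B z) = B ((B ^ e) z) := by
      change (B ^ e * B) z = (B * B ^ e) z
      rw [← pow_succ, ← pow_succ']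
    rw [h2, hpow z, map_add, map_nsmul] at h1
    exact (add_left_cancel h1).symm
  · -- the inverse
    have hWmem : ∀ z ∈ Λ, W z ∈ Λ := by
      intro z hz
      rw [hW, LinearMap.add_apply, Module.End.one_apply, LinearMap.smul_apply]
      exact Λ.add_mem hz (Λ.smul_mem _ (AR_poly_mem X₁ Λ (hX₁mem Λ hΛ hBΛ) r z hz))
    have hz₁ := AR_poly_mem X₁ Λ (hX₁mem Λ hΛ hBΛ) q₁ z hz
    have hz₂ := AR_poly_mem W Λ hWmem q₂ _ hz₁
    have hval : (X₁ * W) (Polynomial.aeval W q₂ (Polynomial.aeval X₁ q₁ z)) =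
        (LinearMap.det X₁ * LinearMap.det W) • z := by
      have h1 : W (Polynomial.aeval W q₂ (Polynomial.aeval X₁ q₁ z)) =
          LinearMap.det W • Polynomial.aeval X₁ q₁ z := by
        have := congrArg (fun f : Module.End ℤ L => f (Polynomial.aeval X₁ q₁ z)) hq₂
        simpa using this
      have h2 : X₁ (Polynomial.aeval X₁ q₁ z) = LinearMap.det X₁ • z := by
        have := congrArg (fun f : Module.End ℤ L => f z) hq₁
        simpa using this
      rw [Module.End.mul_apply, h1, map_smul, h2, smul_smul, mul_comm]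
    have hnat : ((p ^ c * (u₁ * (LinearMap.det W).natAbs) : ℕ) : ℤ) =
        |LinearMap.det X₁ * LinearMap.det W| := by
      rw [← mul_assoc, ← hcu, Nat.cast_mul, Int.natCast_natAbs, Int.natCast_natAbs, abs_mul]
    rcases abs_choice (LinearMap.det X₁ * LinearMap.det W) with h | h
    · refine ⟨_, hz₂, ?_⟩
      rw [hval, ← h, ← hnat, natCast_zsmul]
    · refine ⟨-_, Λ.neg_mem hz₂, ?_⟩
      rw [map_neg, hval, ← neg_smul, ← h, ← hnat, natCast_zsmul]

end

end Pool.Agent.helper86.CM
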