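import Pool.Agent.helper86.CM.Defs

/-! # Cat maps, module CL: closure in the topology of pointwise convergence -/

open scoped BigOperators Topology

namespace Pool.Agent.helper86.CM

theorem CL {ι : Type} (S : Set (ι → ℂ)) (F : ι → ℂ) :
    F ∈ closure S ↔ ∀ (s : Finset ι) (ε : ℝ), 0 < ε → ∃ G ∈ S, ∀ n ∈ s, ‖F n - G n‖ ≤ ε := by
  constructor
  · intro hF s ε hε
    rw [mem_closure_iff_frequently] at hF
    have h1 : ∀ᶠ G : ι → ℂ in 𝓝 F, ∀ n ∈ s, ‖F n - G n‖ ≤ ε := by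
      refine (Filter.eventually_all_finset s).2 fun n _ => ?_
      have hc : Filter.Tendsto (fun G : ι → ℂ => ‖F n - G n‖) (𝓝 F) (𝓝 ‖F n - F n‖) := by
        refine Continuous.tendsto (f := fun G : ι → ℂ => ‖F n - G n‖) ?_ F
        fun_prop
      rw [sub_self, norm_zero] at hc
      exact (hc.eventually (Iio_mem_nhds hε)).mono fun G hG => le_of_lt hG
    obtain ⟨G, hG1, hG2⟩ := (hF.and_eventually h1).exists
    exact ⟨G, hG1, hG2⟩
  · intro h
    rw [mem_closure_iff_nhds]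
    intro U hU
    rw [nhds_pi, Filter.mem_pi'] at hU
    obtain ⟨I, t, ht, htU⟩ := hU
    choose ε hε hball using fun i => Metric.mem_nhds_iff.1 (ht i)
    have h1 : ∀ᶠ δ : ℝ in 𝓝[>] 0, ∀ i ∈ I, δ < ε i := by
      refine (Filter.eventually_all_finset I).2 fun i _ => ?_
      filter_upwards [Ioo_mem_nhdsGT (hε i)] with δ hδ using hδ.2
    obtain ⟨δ, hδ1, hδ2⟩ := (h1.and self_mem_nhdsWithin).exists
    obtain ⟨G, hG, hGF⟩ := h I δ hδ2
    refine ⟨G, htU fun i hi => hball i ?_, hG⟩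
    rw [Metric.mem_ball, dist_comm, dist_eq_norm]
    exact (hGF i hi).trans_lt (hδ1 i hi)

end Pool.Agent.helper86.CM
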