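import Pool.Agent.helper86.CM.Defs

/-! # Cat maps, module EXT: characters of saturated lattices are evaluations -/

open scoped BigOperators

namespace Pool.Agent.helper86.CM

noncomputable section

/-- the quotient by a saturated sublattice is free -/
theorem EXT_free {L : Type} [AddCommGroup L] [Module.Finite ℤ L] (Λ : Submodule ℤ L)
    (hΛ : IsSat Λ) : Module.Free ℤ (L ⧸ Λ) := by
  have : Module.IsTorsionFree ℤ (L ⧸ Λ) := by
    refine Module.IsTorsionFree.of_smul_eq_zero fun a z haz => ?_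
    by_cases ha : a = 0
    · exact Or.inl ha
    · right
      obtain ⟨w, rfl⟩ := Submodule.Quotient.mk_surjective Λ z
      rw [← Submodule.Quotient.mk_smul, Submodule.Quotient.mk_eq_zero] at haz
      rw [Submodule.Quotient.mk_eq_zero]
      exact hΛ a w ha haz
  exact Module.free_of_finite_type_torsion_free'

/-- a saturated sublattice is a direct summand -/
theorem EXT_retr {L : Type} [AddCommGroup L] [Module.Finite ℤ L] (Λ : Submodule ℤ L)
    (hΛ : IsSat Λ) : ∃ r : L →ₗ[ℤ] Λ, ∀ z : Λ, r z = z := by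
  have := EXT_free Λ hΛ
  obtain ⟨s, hs⟩ := LinearMap.exists_rightInverse_of_surjective Λ.mkQ
    (LinearMap.range_eq_top.2 (Submodule.mkQ_surjective Λ))
  have hmem : ∀ z : L, z - s (Λ.mkQ z) ∈ Λ := by
    intro z
    have h1 := congrArg (fun f : (L ⧸ Λ) →ₗ[ℤ] (L ⧸ Λ) => f (Λ.mkQ z)) hs
    simp only [LinearMap.comp_apply, LinearMap.id_apply] at h1
    rw [← Submodule.Quotient.mk_eq_zero, Submodule.Quotient.mk_sub, sub_eq_zero]
    exact h1.symm
  refine ⟨LinearMap.codRestrict Λ (LinearMap.id - s ∘ₗ Λ.mkQ) hmem, fun z => ?_⟩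
  apply Subtype.ext
  have h1 : Λ.mkQ (z : L) = 0 := (Submodule.Quotient.mk_eq_zero Λ).2 z.2
  simp [LinearMap.codRestrict_apply, h1]

theorem EXT_circle (z : ℂ) (hz : ‖z‖ = 1) : ∃ θ : UnitAddCircle, fourier 1 θ = z := by
  refine ⟨(AddCircle.homeomorphCircle (T := 1) one_ne_zero).symm
    ⟨z, mem_sphere_zero_iff_norm.2 hz⟩, ?_⟩
  rw [fourier_one, ← AddCircle.homeomorphCircle_apply one_ne_zero, Homeomorph.apply_symm_apply]

theorem EXT_fourier (n : ℤ) (θ : UnitAddCircle) : fourier n θ = (fourier 1 θ) ^ n := by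
  rw [fourier_apply, fourier_one, AddCircle.toCircle_zsmul]
  simp

/-- the values of `mFourier` by those on the unit vectors -/
theorem EXT_mFourier {ι : Type} [Fintype ι] (x : UnitAddTorus ι) (z : ι → ℤ) :
    UnitAddTorus.mFourier z x = ∏ i, (fourier 1 (x i)) ^ (z i) := by
  simp only [UnitAddTorus.mFourier, ContinuousMap.coe_mk]
  exact Finset.prod_congr rfl fun i _ => EXT_fourier _ _

theorem EXT_char {ι : Type} [Fintype ι] [DecidableEq ι] (χ : AddChar (ι → ℤ) ℂ) (z : ι → ℤ) :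
    χ z = ∏ i, (χ (Pi.single i 1)) ^ (z i) := by
  have h1 : z = ∑ i, (z i) • (Pi.single i (1 : ℤ) : ι → ℤ) := by
    funext j
    simp [Finset.sum_apply, Pi.single_apply]
  conv_lhs => rw [h1]
  have h2 : ∀ s : Finset ι, χ (∑ i ∈ s, (z i) • (Pi.single i (1 : ℤ) : ι → ℤ)) =
      ∏ i ∈ s, (χ (Pi.single i 1)) ^ (z i) := by
    intro s
    induction s using Finset.induction_on with
    | empty => simp
    | insert a s has ih =>
      rw [Finset.sum_insert has, Finset.prod_insert has, AddChar.map_add_eq_mul, ih,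
        AddChar.map_zsmul_eq_zpow]
  exact h2 _

theorem EXT (g : ℕ) (Λ : Submodule ℤ (Lat g)) (hΛ : IsSat Λ) (η : AddChar Λ ℂ) (M : ℕ)
    (hM : M ≠ 0) (hη : ∀ z, η (M • z) = 1) :
    ∃ x : UnitAddTorus (Fin g ⊕ Fin g), ∀ z : Λ, UnitAddTorus.mFourier (z : Lat g) x = η z := by
  obtain ⟨r, hr⟩ := EXT_retr Λ hΛ
  let χ : AddChar (Lat g) ℂ := η.compAddMonoidHom r.toAddMonoidHom
  have hχ : ∀ z, χ z = η (r z) := fun z => rfl
  have hnorm : ∀ z, ‖χ z‖ = 1 := by
    intro z
    rw [hχ]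
    refine Complex.norm_eq_one_of_pow_eq_one ?_ hM
    rw [← AddChar.map_nsmul_eq_pow, hη]
  choose x hx using fun i => EXT_circle (χ (Pi.single i 1)) (hnorm _)
  refine ⟨x, fun z => ?_⟩
  rw [EXT_mFourier]
  have h1 : η z = χ z := by rw [hχ, hr]
  rw [h1, EXT_char]
  exact Finset.prod_congr rfl fun i _ => by rw [hx]

end

end Pool.Agent.helper86.CM
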