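import Pool.Agent.helper35.CM.LAT
import Pool.Agent.helper45.CM.CU
import Pool.Agent.helper10.CM.LI

/-! # Cat maps, module FX: characters with `χ (X n)` prescribed are nearly trivial -/

set_option linter.unusedVariables false

open scoped BigOperators

namespace Pool.Agent.helper86.CM

noncomputable section

variable {L : Type} [AddCommGroup L] [Module.Free ℤ L] [Module.Finite ℤ L]

omit [Module.Free ℤ L] [Module.Finite ℤ L] in
theorem FX_iter {Ξ : Type} (B : L ≃ₗ[ℤ] L) (τ : Equiv.Perm Ξ) (ch : Ξ → AddChar L ℂ)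
    (h : ∀ x z, ch (τ x) z = ch x (B z)) (t : ℕ) (x : Ξ) (z : L) :
    ch ((τ ^ t) x) z = ch x ((B ^ t) z) := by
  induction t generalizing z with
  | zero => simp
  | succ t ih =>
    rw [pow_succ', pow_succ]
    change ch (τ ((τ ^ t) x)) z = ch x ((B ^ t) (B z))
    rw [h, ih]

omit [Module.Free ℤ L] [Module.Finite ℤ L] in
theorem FX_comm (B : L ≃ₗ[ℤ] L) (X : L →ₗ[ℤ] L) (h : ∀ z, X (B z) = B (X z)) (t : ℕ) (z : L) :
    X ((B ^ t) z) = (B ^ t) (X z) := by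
  induction t generalizing z with
  | zero => simp
  | succ t ih =>
    rw [pow_succ]
    change X ((B ^ t) (B z)) = (B ^ t) (B (X z))
    rw [ih, h]

/-- a character trivial on a set composed with `X` is trivial on the span -/
theorem FX_span {L : Type} [AddCommGroup L] (χ : AddChar L ℂ) (X : L →ₗ[ℤ] L) (S : Set L)
    (h : ∀ y ∈ S, χ (X y) = 1) : ∀ y ∈ Submodule.span ℤ S, χ (X y) = 1 := by
  intro y hy
  induction hy using Submodule.span_induction with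
  | mem y hy => exact h y hy
  | zero => simp
  | add a b _ _ ha hb => rw [map_add, AddChar.map_add_eq_mul, ha, hb, one_mul]
  | smul a y _ hy => rw [map_smul, AddChar.map_zsmul_eq_zpow, hy, one_zpow]

theorem FX_coprime (z : ℂ) (a b : ℕ) (ha : z ^ a = 1) (hb : z ^ b = 1) (hab : a.Coprime b) :
    z = 1 := by
  have h1 := Nat.dvd_gcd (orderOf_dvd_of_pow_eq_one ha) (orderOf_dvd_of_pow_eq_one hb)
  rw [hab.gcd_eq_one, Nat.dvd_one] at h1
  exact orderOf_eq_one_iff.1 h1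

theorem FX (p : ℕ) [Fact p.Prime] (B : L ≃ₗ[ℤ] L) (hB : Erg B) (hMP : MPr B) (n : L) (c : ℕ)
    (δ : ℝ) (hδ : 0 < δ) :
    ∃ C₁ : ℕ, ∀ (i e u : ℕ) (X : L →ₗ[ℤ] L), ARdata p B c i e u X →
      ∀ (Ξ : Type) [Fintype Ξ] (τ : Equiv.Perm Ξ) (w : Ξ → ℝ) (ch : Ξ → AddChar L ℂ) (K : ℕ)
        (κ : ℂ), (∀ x, 0 ≤ w x) → (∀ x, w (τ x) = w x) →
        (∀ x z, ch (τ x) z = ch x (B z)) → (∀ x z, ch x (p ^ K • z) = 1) →
        ∀ F : Finset Ξ, (∀ x ∈ F, ch x (X n) = κ ∧ ∃ m ∈ Lam B n, ch x (p ^ C₁ • m) ≠ 1) →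
          ∑ x ∈ F, w x ≤ δ * ∑ x, w x := by
  obtain ⟨R, hR⟩ := CU δ hδ (Module.finrank ℤ L + 1)
  obtain ⟨D, hD, hD2⟩ := LI B hB hMP n R
  have hp : p.Prime := Fact.out
  obtain ⟨v, D', hD'p, hDD⟩ := Nat.exists_eq_pow_mul_and_not_dvd (n := D) (by omega) p hp.ne_one
  have hcop : Nat.Coprime D' p := ((Nat.Prime.coprime_iff_not_dvd hp).2 hD'p).symm
  refine ⟨c + v, fun i e u X hX Ξ _ τ w ch K κ hw hwτ hch hK F hF => ?_⟩
  by_contra hcon
  push Not at hcon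
  have hW : 0 ≤ δ * ∑ x, w x := mul_nonneg hδ.le (Finset.sum_nonneg fun x _ => hw x)
  obtain ⟨h, hh, x, hxF, hx⟩ := hR Ξ τ w hw hwτ F (hW.trans_lt hcon) hcon.le
  have hval : ∀ s : Finset (Fin (Module.finrank ℤ L + 1)),
      ch x (X ((B ^ (∑ i ∈ s, h i)) n)) = κ := by
    intro s
    rw [FX_comm B X hX.comm, ← FX_iter B τ ch hch]
    exact (hF _ (hx s)).1
  have hκ : κ ≠ 0 := by
    rw [← (hF x hxF).1]
    intro h0
    have : ch x (X n + -(X n)) = 0 := by rw [AddChar.map_add_eq_mul, h0, zero_mul]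
    simp at this
  have hspan := FX_span (ch x) X
    {y | ∃ s s' : Finset (Fin (Module.finrank ℤ L + 1)),
      y = (B ^ (∑ i ∈ s, h i)) n - (B ^ (∑ i ∈ s', h i)) n} (by
    rintro y ⟨s, s', rfl⟩
    have h1 : X ((B ^ (∑ i ∈ s, h i)) n) = X ((B ^ (∑ i ∈ s, h i)) n - (B ^ (∑ i ∈ s', h i)) n) +
        X ((B ^ (∑ i ∈ s', h i)) n) := by rw [← map_add]; congr 1; abel
    have h2 := hval s
    rw [h1, AddChar.map_add_eq_mul, hval s'] at h2
    exact mul_right_cancel₀ hκ (h2.trans (one_mul κ).symm))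
  obtain ⟨-, m, hm, hm1⟩ := hF x hxF
  apply hm1
  obtain ⟨z', hz', hz'2⟩ := hX.inv (Lam B n) (Lam_sat B n) (Lam_inv B n) m hm
  have h3 := hspan _ (hD2 h hh z' hz')
  rw [map_nsmul, hz'2] at h3
  have h4 : D • (p ^ c * u) • m = (D' * u) • (p ^ (c + v) • m) := by
    rw [← mul_smul, ← mul_smul, hDD]
    congr 1
    ring
  rw [h4, AddChar.map_nsmul_eq_pow] at h3
  have h5 := hK x (p ^ (c + v) • m)
  rw [AddChar.map_nsmul_eq_pow] at h5
  refine FX_coprime _ _ _ h3 h5 ?_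
  exact Nat.Coprime.pow_right K (Nat.Coprime.mul_left hcop hX.cop)

end

end Pool.Agent.helper86.CM
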